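import Pool.Agent.Helper38.VF.Goals2

/-!
Packets VTF-KUR and VTF-L2D.
-/

set_option autoImplicit false

namespace Pool.Agent.Helper17.VF

open Pool.Agent.Helper38.VF

universe u

section Kur

variable {A : Type u} {k : ℕ}

theorem two_pos' : 0 < (2 : ENNReal).toReal := by norm_num

theorem sum_res (f : L2 (Fin k × A)) (i : Fin k) (s : Finset A) :
    ∑ b ∈ s, ‖f (i, b)‖ ^ (2 : ENNReal).toReal ≤ ‖f‖ ^ (2 : ENNReal).toReal := by
  have h := lp.sum_rpow_le_norm_rpow two_pos' f
    (s.map ⟨fun b => (i, b), fun b b' h => (Prod.mk.inj h).2⟩)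
  rw [Finset.sum_map] at h
  exact h

/-- Restriction. -/
noncomputable def res (f : L2 (Fin k × A)) (i : Fin k) : L2 A :=
  ⟨fun b => f (i, b), memℓp_gen' (sum_res f i)⟩

theorem glu_mem (e : Fin k → L2 A) : Memℓp (fun z : Fin k × A => (e z.1 z.2 : ℝ)) 2 := by
  classical
  apply memℓp_gen' (C := ∑ i, ‖e i‖ ^ (2 : ENNReal).toReal)
  intro s
  have h1 : ∑ z ∈ s, ‖(e z.1 z.2 : ℝ)‖ ^ (2 : ENNReal).toReal ≤
      ∑ z ∈ Finset.univ ×ˢ s.image Prod.snd, ‖(e z.1 z.2 : ℝ)‖ ^ (2 : ENNReal).toReal := by
    apply Finset.sum_le_sum_of_subset_of_nonneg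
    · intro z hz
      rw [Finset.mem_product]
      exact ⟨Finset.mem_univ _, Finset.mem_image_of_mem _ hz⟩
    · intro z _ _
      positivity
  refine h1.trans ?_
  rw [Finset.sum_product]
  exact Finset.sum_le_sum fun i _ => lp.sum_rpow_le_norm_rpow two_pos' (e i) _

/-- The linear equivalence. -/
noncomputable def spl (A : Type u) (k : ℕ) : L2 (Fin k × A) ≃ₗ[ℝ] (Fin k → L2 A) where
  toFun f := fun i => res f i
  invFun e := ⟨fun z => e z.1 z.2, glu_mem e⟩
  map_add' _ _ := rfl
  map_smul' _ _ := rfl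
  left_inv _ := rfl
  right_inv _ := rfl

theorem spl_cont (A : Type u) (k : ℕ) : Continuous (spl A k) := by
  apply continuous_pi
  intro i
  let L : L2 (Fin k × A) →ₗ[ℝ] L2 A :=
    { toFun := fun f => res f i
      map_add' := fun _ _ => rfl
      map_smul' := fun _ _ => rfl }
  exact (L.mkContinuous 1 (fun f => by
    rw [one_mul]
    exact lp.norm_le_of_forall_sum_le two_pos' (norm_nonneg _) (sum_res f i))).continuous

theorem kur : KurStmt.{u} := by
  intro A k
  exact ⟨((spl A k).toContinuousLinearEquivOfContinuous (spl_cont A k)).symm, fun e i b => rfl⟩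

end Kur

section L2d

variable {A : Type u} [Group A] [DistribMulAction A (L2 A)]

theorem l2d : L2dStmt.{u} := by
  intro A _ _ hA hT y hy
  classical
  have hsm : ∀ (c : ℝ) (v : L2 A), y • (c • v) = c • (y • v) := by
    intro c v
    apply lp.ext
    funext a
    rw [hA, lp.coeFn_smul, lp.coeFn_smul, Pi.smul_apply, Pi.smul_apply, hA]
  let S : Submodule ℝ (L2 A) :=
    { carrier := {m | ∃ v, m = v - y • v}
      add_mem' := by
        rintro _ _ ⟨v, rfl⟩ ⟨w, rfl⟩
        exact ⟨v + w, by rw [smul_add]; abel⟩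
      zero_mem' := ⟨0, by rw [smul_zero, sub_zero]⟩
      smul_mem' := by
        rintro c _ ⟨v, rfl⟩
        exact ⟨c • v, by rw [hsm, smul_sub]⟩ }
  have hS : Sᗮ = ⊥ := by
    rw [Submodule.eq_bot_iff]
    intro z hz
    rw [Submodule.mem_orthogonal] at hz
    have h1 : ∀ a, z a = z (y * a) := by
      intro a
      have h2 := hz _ ⟨lp.single 2 a (1 : ℝ), rfl⟩
      have h3 : y • (lp.single 2 a (1 : ℝ) : L2 A) = lp.single 2 (y * a) (1 : ℝ) := by
        apply lp.ext
        funext b
        rw [hA, lp.coeFn_single, lp.coeFn_single]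
        by_cases hb : b = y * a
        · rw [hb, inv_mul_cancel_left, Pi.single_eq_same, Pi.single_eq_same]
        · have hb' : y⁻¹ * b ≠ a := by
            intro h
            apply hb
            rw [← h, mul_inv_cancel_left]
          rw [Pi.single_eq_of_ne hb, Pi.single_eq_of_ne hb']
      rw [h3, inner_sub_left, lp.inner_single_left, lp.inner_single_left] at h2
      simpa [sub_eq_zero] using h2
    have h2 : ∀ (n : ℕ) a, z (y ^ n * a) = z a := by
      intro n
      induction n with
      | zero => intro a; rw [pow_zero, one_mul]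
      | succ n ih =>
        intro a
        rw [pow_succ', mul_assoc, ← h1, ih]
    have hinj : Function.Injective fun n : ℕ => y ^ n := by
      rw [injective_pow_iff_not_isOfFinOrder, isOfFinOrder_iff_pow_eq_one]
      rintro ⟨n, hn, h⟩
      exact hy (hT y n hn h)
    apply lp.ext
    funext a
    have h3 : Summable fun b : A => ‖z b‖ ^ (2 : ENNReal).toReal :=
      (memℓp_gen_iff two_pos').1 (lp.memℓp z)
    have h4 : Function.Injective fun n : ℕ => y ^ n * a := fun n n' h =>
      hinj (mul_right_cancel h)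
    have h5 := h3.comp_injective h4
    have h6 : ((fun b : A => ‖z b‖ ^ (2 : ENNReal).toReal) ∘ fun n : ℕ => y ^ n * a) =
        fun _ => ‖z a‖ ^ (2 : ENNReal).toReal := by
      funext n
      change ‖z (y ^ n * a)‖ ^ (2 : ENNReal).toReal = _
      rw [h2]
    rw [h6, summable_const_iff] at h5
    have h7 : ‖z a‖ = 0 := by
      by_contra hne
      have := Real.rpow_pos_of_pos (lt_of_le_of_ne (norm_nonneg (z a)) (Ne.symm hne))
        (2 : ENNReal).toReal
      exact this.ne' h5
    rw [norm_eq_zero] at h7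
    exact h7
  have h8 : (S.topologicalClosure : Submodule ℝ (L2 A)) = ⊤ :=
    Submodule.topologicalClosure_eq_top_iff.2 hS
  have h9 : Dense (S : Set (L2 A)) := (Submodule.dense_iff_topologicalClosure_eq_top).2 h8
  exact h9

end L2d

end Pool.Agent.Helper17.VF
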