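import Pool.Agent.Helper38.VF.Goals2

/-!
Packets VTF-RTR and VTF-ACT: translations act on square summable functions.
-/

set_option autoImplicit false

namespace Pool.Agent.Helper17.VF

open Pool.Agent.Helper38.VF

universe u

section Comp

variable {X Y : Type u}

theorem two_pos : 0 < (2 : ENNReal).toReal := by norm_num

theorem mem_comp (e : X ≃ Y) (f : L2 Y) : Memℓp (fun x : X => (f (e x) : ℝ)) 2 := by
  have h := (memℓp_gen_iff two_pos).1 (lp.memℓp f)
  exact (memℓp_gen_iff two_pos).2
    ((e.summable_iff (f := fun y => ‖f y‖ ^ (2 : ENNReal).toReal)).2 h)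

/-- Composition with a bijection. -/
noncomputable def cmp (e : X ≃ Y) : L2 Y ≃ₗᵢ[ℝ] L2 X where
  toFun f := ⟨fun x => f (e x), mem_comp e f⟩
  invFun f := ⟨fun y => f (e.symm y), mem_comp e.symm f⟩
  map_add' _ _ := rfl
  map_smul' _ _ := rfl
  left_inv f := by
    apply lp.ext
    funext y
    exact congrArg f (e.apply_symm_apply y)
  right_inv f := by
    apply lp.ext
    funext x
    exact congrArg f (e.symm_apply_apply x)
  norm_map' f := by
    rw [lp.norm_eq_tsum_rpow two_pos, lp.norm_eq_tsum_rpow two_pos]
    congr 1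
    exact e.tsum_eq (fun y => ‖f y‖ ^ (2 : ENNReal).toReal)

theorem cmp_apply (e : X ≃ Y) (f : L2 Y) (x : X) : cmp e f x = f (e x) := rfl

end Comp

theorem rtr : RtrStmt.{u} := by
  intro A _ k h
  exact ⟨cmp ((Equiv.refl (Fin k)).prodCongr (Equiv.mulRight h)), fun f z => rfl⟩

theorem act : ActStmt.{u} := by
  intro A _
  let inst : DistribMulAction A (L2 A) :=
    { smul := fun g f => cmp (Equiv.mulLeft g⁻¹) f
      one_smul := by
        intro f
        apply lp.ext
        funext a
        have : ((1 : A)⁻¹ * a) = a := by rw [inv_one, one_mul]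
        exact congrArg f this
      mul_smul := by
        intro g h f
        apply lp.ext
        funext a
        have : ((g * h)⁻¹ * a) = h⁻¹ * (g⁻¹ * a) := by rw [mul_inv_rev, mul_assoc]
        exact congrArg f this
      smul_zero := by
        intro g
        exact map_zero (cmp (Equiv.mulLeft g⁻¹))
      smul_add := by
        intro g f f'
        exact map_add (cmp (Equiv.mulLeft g⁻¹)) f f' }
  exact ⟨inst, fun g f a => rfl⟩

end Pool.Agent.Helper17.VF
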