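import Pool.Agent.Helper38.VF.Goals2

/-!
Packet VTF-TR1: the trace property.
-/

set_option autoImplicit false

namespace Pool.Agent.Helper17.VF

open Pool.Agent.Helper38.VF

universe u

section Kernel

variable {X Y : Type u} [DecidableEq X]

/-- The kernel of an operator. -/
noncomputable def ker (C : L2 X →L[ℝ] L2 Y) (y : Y) (x : X) : ℝ := C (lp.single 2 x (1 : ℝ)) y

theorem hasSum_ker (C : L2 X →L[ℝ] L2 Y) (f : L2 X) (y : Y) :
    HasSum (fun x => f x * ker C y x) (C f y) := by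
  have h1 := lp.hasSum_single (p := 2) (by norm_num) f
  have h2 := h1.mapL ((lp.evalCLM ℝ (fun _ : Y => ℝ) 2 y).comp C)
  have h3 : (fun x => ((lp.evalCLM ℝ (fun _ : Y => ℝ) 2 y).comp C) (lp.single 2 x (f x))) =
      fun x => f x * ker C y x := by
    funext x
    have h4 : lp.single 2 x (f x) = f x • (lp.single 2 x (1 : ℝ) : L2 X) := by
      rw [← lp.single_smul]
      simp
    rw [h4, map_smul]
    rfl
  rw [h3] at h2
  exact h2

end Kernel

section Equi

variable {A : Type u} [Group A] [DecidableEq A] {m n : ℕ}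

theorem ker_eqv {C : L2 (Fin m × A) →L[ℝ] L2 (Fin n × A)} (hC : Eqv C) (i : Fin n) (j : Fin m)
    (a b h : A) : ker C (i, a * h) (j, b * h) = ker C (i, a) (j, b) := by
  have h1 := hC h (lp.single 2 (j, b * h) (1 : ℝ)) (lp.single 2 (j, b) (1 : ℝ)) (by
    rintro ⟨i', a'⟩
    rw [lp.coeFn_single, lp.coeFn_single]
    by_cases he : (i', a') = (j, b)
    · obtain ⟨rfl, rfl⟩ := Prod.mk.inj he
      rw [Pi.single_eq_same, Pi.single_eq_same]
    · have he' : (i', a' * h) ≠ (j, b * h) := by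
        intro h'
        apply he
        obtain ⟨h2, h3⟩ := Prod.mk.inj h'
        rw [h2, mul_right_cancel h3]
      rw [Pi.single_eq_of_ne he, Pi.single_eq_of_ne he']) (i, a)
  exact h1.symm

theorem tr_comp (P : L2 (Fin m × A) →L[ℝ] L2 (Fin n × A))
    (Q : L2 (Fin n × A) →L[ℝ] L2 (Fin m × A)) :
    ∑ j : Fin n, ((P.comp Q) (lp.single 2 (j, (1 : A)) (1 : ℝ))) (j, 1) =
      ∑ j : Fin n, ∑ i : Fin m, ∑' g : A, ker Q (i, g) (j, 1) * ker P (j, 1) (i, g) := by
  refine Finset.sum_congr rfl fun j _ => ?_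
  have h1 := hasSum_ker P (Q (lp.single 2 (j, (1 : A)) (1 : ℝ))) (j, 1)
  have h2 : ((P.comp Q) (lp.single 2 (j, (1 : A)) (1 : ℝ))) (j, 1) =
      ∑' z : Fin m × A, ker Q z (j, 1) * ker P (j, 1) z := h1.tsum_eq.symm
  have h3 : Summable fun z : Fin m × A => ker Q z (j, 1) * ker P (j, 1) z := h1.summable
  rw [h2, h3.tsum_prod, tsum_fintype]

theorem tr_swap {P : L2 (Fin m × A) →L[ℝ] L2 (Fin n × A)}
    {Q : L2 (Fin n × A) →L[ℝ] L2 (Fin m × A)} (hP : Eqv P) (hQ : Eqv Q) (i : Fin m) (j : Fin n) :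
    ∑' g : A, ker Q (i, g) (j, 1) * ker P (j, 1) (i, g) =
      ∑' g : A, ker P (j, g) (i, 1) * ker Q (i, 1) (j, g) := by
  rw [← (Equiv.inv A).tsum_eq]
  refine tsum_congr fun g => ?_
  have h1 := ker_eqv hP j i 1 g⁻¹ g
  have h2 := ker_eqv hQ i j g⁻¹ 1 g
  rw [one_mul, inv_mul_cancel] at h1 h2
  rw [Equiv.inv_apply, ← h1, ← h2, mul_comm]

end Equi

theorem tr1 : Tr1Stmt.{u} := by
  intro A _ m n P Q hP hQ
  unfold tr'
  classical
  have h1 := tr_comp P Q
  have h2 := tr_comp Q P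
  refine (Eq.trans ?_ h1).trans ((Eq.trans ?_ (Eq.trans h2.symm ?_)))
  · rfl
  · rw [Finset.sum_comm]
    exact Finset.sum_congr rfl fun i _ => Finset.sum_congr rfl fun j _ => tr_swap hP hQ i j
  · rfl

end Pool.Agent.Helper17.VF
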